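import Mathlib.Analysis.InnerProductSpace.PiL2
import Mathlib.Analysis.Normed.Lp.MeasurableSpace
import Mathlib.MeasureTheory.Measure.RegularityCompacts
import Mathlib.MeasureTheory.Constructions.HaarToSphere
import Mathlib.Topology.UniformSpace.Uniformizable
import Mathlib.LinearAlgebra.FreeModule.PID
import Mathlib.RingTheory.Flat.TorsionFree
import Mathlib.Algebra.Order.Ring.Star
import Mathlib.MeasureTheory.Measure.Haar.InnerProductSpace
import Mathlib.Algebra.Order.Archimedean.Real.Hom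
import Mathlib.MeasureTheory.Measure.Haar.Unique
import Mathlib.MeasureTheory.Order.Group.Lattice
import Mathlib.RingTheory.SimpleRing.Principal
import Mathlib.RingTheory.TotallySplit
import Mathlib.Topology.Sheaves.Presheaf
import Mathlib.Tactic.Monotonicity.Lemmas
import Mathlib.Algebra.Order.Star.Real
import Mathlib.Analysis.SpecialFunctions.PolarCoord
import Mathlib.MeasureTheory.Function.SpecialFunctions.Inner
import Mathlib.Analysis.CStarAlgebra.Classes
import Mathlib.Analysis.SpecialFunctions.Gamma.Basic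
import Mathlib.MeasureTheory.Measure.CharacteristicFunction.Basic

-- ======== part 0: formerly Pool.Agent.BoltzD.Dim
section MrgPart0

/-! The dimension `dd ≥ 2` of the position and velocity spaces, as a class. -/

set_option autoImplicit false

namespace Pool.Agent

/-- The dimension. -/
class Dim where
  dd : ℕ
  two_le : 2 ≤ dd

export Dim (dd)

variable [Dim]

/-- Coordinate indices. -/
abbrev Ix : Type := Fin dd

/-- Indices of the collision invariants: `none` mass, `some none` energy, `some (some i)` momentum. -/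
abbrev Hx : Type := Option (Option Ix)

lemma two_le_dd : 2 ≤ dd := Dim.two_le

instance : NeZero dd := ⟨by have := two_le_dd; omega⟩

instance : Nontrivial Ix := Fin.nontrivial_iff_two_le.2 two_le_dd

lemma two_le_dr : (2 : ℝ) ≤ dd := by exact_mod_cast two_le_dd

lemma dr_pos : (0 : ℝ) < dd := by linarith [two_le_dr]

lemma dr_ne : (dd : ℝ) ≠ 0 := dr_pos.ne'

lemma card_Ix : Fintype.card Ix = dd := Fintype.card_fin _

lemma card_Hx : Fintype.card Hx = dd + 2 := by simp

lemma sum_const_Ix (c : ℝ) : ∑ _i : Ix, c = dd * c := by simp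

lemma sum_le_Ix {f : Ix → ℝ} {c : ℝ} (h : ∀ i, f i ≤ c) : ∑ i, f i ≤ dd * c :=
  (Finset.sum_le_sum fun i _ => h i).trans (sum_const_Ix c).le

lemma sum_Hx {M : Type*} [AddCommMonoid M] (f : Hx → M) :
    ∑ a, f a = f none + (f (some none) + ∑ i, f (some (some i))) := by
  simp only [Fintype.sum_option]

lemma finrank_Ix : Module.finrank ℝ (EuclideanSpace ℝ Ix) = dd := by simp

/-- The constant in the repulsivity condition. -/
noncomputable def cs : ℝ := √(dd + 2)

lemma cs_pos : 0 < cs := Real.sqrt_pos.2 (by linarith [dr_pos])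

lemma cs_sq : cs ^ 2 = dd + 2 := Real.sq_sqrt (by linarith [dr_pos])

/-- The decay order in the statements about the collision operator. -/
def pN : ℕ := 2 * dd + 40

lemma pN_eq : pN = 2 * dd + 40 := rfl

lemma pN_cast : (pN : ℝ) = 2 * dd + 40 := by simp [pN]

end Pool.Agent

end MrgPart0

-- ======== part 1: formerly Pool.Agent.BoltzD.Geo.BP
section MrgPart1

-- ======== part 0: formerly Pool.Agent.BoltzD.Coll.Defs
section MrgPart0

/-!
Collision operator in the omega representation (module M2 of the Boltzmann project):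
definitions and the statements shared by the seats.
-/

open MeasureTheory Real
open scoped ENNReal RealInnerProductSpace

noncomputable section

namespace Pool.Agent.BoltzD.Coll

variable [Dim]

/-- velocity space -/
abbrev E := EuclideanSpace ℝ Ix

/-- the hyperplane, used for slices orthogonal to a direction -/
abbrev E2 := EuclideanSpace ℝ (Fin (dd - 1))

/-- unit sphere -/
abbrev S2 := Metric.sphere (0 : E) 1

/-- surface measure on the sphere  -/
def sph : Measure S2 := (volume : Measure E).toSphere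

instance : IsFiniteMeasure sph := by unfold sph; infer_instance

/-- measure in (v_*, omega) -/
def mu2 : Measure (E × S2) := (volume : Measure E).prod sph

/-- measure in (v, v_*, omega) -/
def mu3 : Measure (E × E × S2) := (volume : Measure E).prod mu2

instance : SFinite mu2 := by unfold mu2; infer_instance

instance : SFinite mu3 := by unfold mu3; infer_instance

/-- unnormalised square root of the Maxwellian -/
def sM (v : E) : ℝ := Real.exp (-‖v‖ ^ 2 / 4)

/-- post-collisional velocity v' -/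
def pv (v w o : E) : E := v - ⟪v - w, o⟫ • o

/-- post-collisional velocity v_*' -/
def pw (v w o : E) : E := w + ⟪v - w, o⟫ • o

/-- omega kernel of B = 2^(3-d) r^28 |sin(theta/2)|^(1/2-d) -/
def ker (u o : E) : ℝ := 2 * ‖u‖ ^ (59 / 2 : ℝ) * |⟪u, o⟫| ^ (-(3 / 2) : ℝ)

/-- integrand of the trilinear operator -/
def triI (a g h : E → ℝ) (v : E) (p : E × S2) : ℝ :=
  ker (v - p.1) p.2 * a p.1 * (g (pw v p.1 p.2) * h (pv v p.1 p.2) - g p.1 * h v)

/-- trilinear operator with weight a at v_* -/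
def Tri (a g h : E → ℝ) (v : E) : ℝ := ∫ p, triI a g h v p ∂mu2

/-- Gamma(g,h) = Q(sM g, sM h) over sM, first argument at v_* -/
def Gam (g h : E → ℝ) (v : E) : ℝ := Tri sM g h v

/-- symmetrised form Gamma(g,h) + Gamma(h,g) -/
def Gs (g h : E → ℝ) (v : E) : ℝ := Gam g h v + Gam h g v

/-- linearised operator -/
def Lop (g : E → ℝ) (v : E) : ℝ := -Gs sM g v

/-- symmetric two-particle function g h_* + h g_* -/
def Sym (g h : E → ℝ) (v w : E) : ℝ := g v * h w + h v * g w

/-- collisional increment of a two-particle function -/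
def Inc (F : E → E → ℝ) (p : E × E × S2) : ℝ :=
  F (pv p.1 p.2.1 p.2.2) (pw p.1 p.2.1 p.2.2) - F p.1 p.2.1

/-- kernel as a function of (v, v_*, omega) -/
def ker3 (p : E × E × S2) : ℝ := ker (p.1 - p.2.1) p.2.2

/-- four times the dissipation, as a lower integral -/
def DL (f : E → ℝ) : ℝ≥0∞ := ∫⁻ p, ENNReal.ofReal (ker3 p * Inc (Sym f sM) p ^ 2) ∂mu3

/-- dissipation; equals the integral of (Lop f) f for nice f -/
def Dis (f : E → ℝ) : ℝ := (DL f).toReal / 4

/-- squared L2 norm as a lower integral -/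
def L2L (f : E → ℝ) : ℝ≥0∞ := ∫⁻ v, ENNReal.ofReal (f v ^ 2)

/-- anisotropic jump kernel -/
def jk (v z : E) : ℝ :=
  (1 + ‖v‖) ^ (59 / 2 : ℝ) * (‖z‖ ^ 2 + ⟪v, z⟫ ^ 2) ^ (-(dd / 2 + 1 / 4) : ℝ)

/-- jump part of the anisotropic norm -/
def NJ (g : E → ℝ) : ℝ≥0∞ :=
  ∫⁻ v, ∫⁻ z in Metric.ball (0 : E) 1, ENNReal.ofReal (jk v z * (g (v + z) - g v) ^ 2)

/-- weight part of the anisotropic norm -/
def NW (g : E → ℝ) : ℝ≥0∞ := ∫⁻ v, ENNReal.ofReal ((1 + ‖v‖) ^ (57 / 2 : ℝ) * g v ^ 2)

/-- squared anisotropic norm -/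
def NL (g : E → ℝ) : ℝ≥0∞ := NJ g + NW g

/-- weighted bound and weighted local Lipschitz bound -/
def Nice (p : ℕ) (K : ℝ) (h : E → ℝ) : Prop :=
  (∀ v, (1 + ‖v‖) ^ p * |h v| ≤ K) ∧
    ∀ v z, ‖z‖ ≤ 1 → (1 + ‖v‖) ^ p * |h (v + z) - h v| ≤ K * ‖z‖

/-- C2 (helper39) -/
def C2Stmt : Prop :=
  ∃ C : ℝ, 0 < C ∧ ∀ (g h : E → ℝ) (K : ℝ), Measurable g → Nice pN K h →
    ∫⁻ p, ENNReal.ofReal (ker3 p * Inc (fun v w => g v * h w) p ^ 2) ∂mu3
      ≤ ENNReal.ofReal (C * K ^ 2) * NL g

/-- C3 (helper89) -/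
def C3Stmt : Prop :=
  ∃ C : ℝ, 0 < C ∧ ∀ (g : E → ℝ) (K : ℝ), Nice pN K g →
    NL g ≤ ENNReal.ofReal C * (DL g + L2L g)

/-- collision invariants: g is orthogonal to sM, V_i sM, |V|^2 sM -/
def Micro (g : E → ℝ) : Prop :=
  ∫ v, g v * sM v = 0 ∧ (∀ i, ∫ v, g v * (v i * sM v) = 0) ∧ ∫ v, g v * (‖v‖ ^ 2 * sM v) = 0

/-- C4 (helper84) -/
def C4Stmt : Prop :=
  ∃ lam : ℝ, 0 < lam ∧ ∀ (g : E → ℝ) (K : ℝ), Nice pN K g → Micro g →
    ENNReal.ofReal lam * L2L g ≤ DL g

/-- trilinear estimate used by M3, M4, M6 (from C1, C2, C3) -/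
def TriStmt : Prop :=
  ∃ C : ℝ, 0 < C ∧ ∀ (g h f : E → ℝ) (Kg Kh Kf : ℝ), Nice pN Kg g → Nice pN Kh h → Nice pN Kf f →
    |∫ v, Gs g h v * f v| ≤ C * Kh * √(Dis g + ∫ v, g v ^ 2) * √(Dis f)

/-- weight control used by M3, M4, M6 (from C3) -/
def WgtStmt : Prop :=
  ∃ C : ℝ, 0 < C ∧ ∀ (g : E → ℝ) (K : ℝ), Nice pN K g →
    ∫ v, (1 + ‖v‖) ^ 8 * g v ^ 2 ≤ C * (Dis g + ∫ v, g v ^ 2)

end Pool.Agent.BoltzD.Coll

end
end MrgPart0

-- ======== part 1: formerly Pool.Agent.BoltzD.Coll.Geom
section MrgPart1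

/-!
Geometric tools: polar coordinates, slices along a unit vector, symmetries of the collision measure.
-/

open MeasureTheory Real Set
open scoped ENNReal RealInnerProductSpace

noncomputable section

namespace Pool.Agent.BoltzD.Coll

variable [Dim]

instance : NeZero (dd - 1) := ⟨by have := two_le_dd; omega⟩

/-! polar coordinates -/

omit [Dim] in
theorem lintegral_polar_gen {X : Type*} [NormedAddCommGroup X] [NormedSpace ℝ X]
    [FiniteDimensional ℝ X] [MeasurableSpace X] [BorelSpace X] [Nontrivial X]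
    (μ : Measure X) [μ.IsAddHaarMeasure] (F : X → ℝ≥0∞) (hF : Measurable F) :
    ∫⁻ z, F z ∂μ = ∫⁻ o, (∫⁻ r in Ioi (0 : ℝ),
      ENNReal.ofReal (r ^ (Module.finrank ℝ X - 1)) * F (r • (o : X))) ∂μ.toSphere := by
  have h1 : ∫⁻ z, F z ∂μ = ∫⁻ x : ({0}ᶜ : Set X), F x ∂(μ.comap (↑)) := by
    rw [lintegral_subtype_comap (measurableSet_singleton _).compl, restrict_compl_singleton]
  have hm : Measurable fun p : Metric.sphere (0 : X) 1 × Ioi (0 : ℝ) => F (p.2.1 • p.1.1) := by
    apply hF.comp; fun_prop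
  have h2 := μ.measurePreserving_homeomorphUnitSphereProd.lintegral_comp hm
  have h3 : ∀ x : ({0}ᶜ : Set X),
      ((homeomorphUnitSphereProd X x).2.1 • (homeomorphUnitSphereProd X x).1.1 : X) = x := by
    intro x
    have hx : (x : X) ≠ 0 := x.2
    simp [homeomorphUnitSphereProd_apply_fst_coe, homeomorphUnitSphereProd_apply_snd_coe,
      smul_smul, norm_ne_zero_iff.2 hx]
  simp only [h3] at h2
  rw [h1, h2, lintegral_prod _ hm.aemeasurable]
  refine lintegral_congr fun o => ?_
  rw [Measure.volumeIoiPow, lintegral_withDensity_eq_lintegral_mul _ (by fun_prop)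
    (by apply hF.comp; fun_prop)]
  exact lintegral_subtype_comap measurableSet_Ioi
    (fun r : ℝ => ENNReal.ofReal (r ^ (Module.finrank ℝ X - 1)) * F (r • (o : X)))

theorem lintegral_polar (F : E → ℝ≥0∞) (hF : Measurable F) :
    ∫⁻ z, F z = ∫⁻ o, (∫⁻ r in Ioi (0 : ℝ),
      ENNReal.ofReal (r ^ (dd - 1)) * F (r • (o : E))) ∂sph := by
  have := lintegral_polar_gen (volume : Measure E) F hF
  simpa [sph] using this

/-- area of the unit sphere of the hyperplane -/
def cS : ℝ := (volume : Measure E2).toSphere.real univ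

lemma cS_pos : 0 < cS :=
  ENNReal.toReal_pos (by
    rw [Ne, Measure.measure_univ_eq_zero]; exact Measure.toSphere_ne_zero _) (measure_ne_top _ _)

/-- area of the unit sphere -/
def cT : ℝ := sph.real univ

lemma cT_pos : 0 < cT :=
  ENNReal.toReal_pos (by
    rw [Ne, Measure.measure_univ_eq_zero]; exact Measure.toSphere_ne_zero _) (measure_ne_top _ _)

theorem sph_univ : sph univ = ENNReal.ofReal cT := (ofReal_measureReal (measure_ne_top _ _)).symm

/-- radial functions on the hyperplane -/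
theorem lintegral_radial2 (F : ℝ → ℝ≥0∞) (hF : Measurable F) :
    ∫⁻ y : E2, F ‖y‖ =
      ENNReal.ofReal cS * ∫⁻ r in Ioi (0 : ℝ), ENNReal.ofReal (r ^ (dd - 2)) * F r := by
  have := lintegral_polar_gen (volume : Measure E2) (fun y => F ‖y‖) (hF.comp measurable_norm)
  rw [this]
  have h : ∀ o : Metric.sphere (0 : E2) 1, (∫⁻ r in Ioi (0 : ℝ),
      ENNReal.ofReal (r ^ (Module.finrank ℝ E2 - 1)) * F ‖r • (o : E2)‖)
      = ∫⁻ r in Ioi (0 : ℝ), ENNReal.ofReal (r ^ (dd - 2)) * F r := by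
    intro o
    refine setLIntegral_congr_fun measurableSet_Ioi fun r hr => ?_
    have hr' : (0 : ℝ) < r := hr
    simp [norm_smul, abs_of_pos hr', Nat.sub_sub]
  simp only [h]
  rw [lintegral_const, mul_comm, cS, ofReal_measureReal (measure_ne_top _ _)]

lemma lintegral_pow_Ioo : (dd : ℝ≥0∞) *
    ∫⁻ r in Ioo (0 : ℝ) 1, ENNReal.ofReal (r ^ (dd - 1)) = 1 := by
  have hd := two_le_dd
  rw [restrict_Ioo_eq_restrict_Ioc, ← ofReal_integral_eq_lintegral_ofReal
    (intervalIntegral.intervalIntegrable_pow _).1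
    (ae_restrict_of_forall_mem measurableSet_Ioc fun x hx => pow_nonneg hx.1.le _),
    ← intervalIntegral.integral_of_le zero_le_one, integral_pow, ← ENNReal.ofReal_natCast,
    ← ENNReal.ofReal_mul (by positivity), Nat.cast_sub (by omega), ← ENNReal.ofReal_one]
  congr 1
  have : (0 : ℝ) < dd := by exact_mod_cast (by omega : 0 < dd)
  simp only [one_pow, ne_eq, Nat.add_eq_zero_iff, one_ne_zero, and_false, not_false_eq_true,
    zero_pow, sub_zero, Nat.cast_one, sub_add_cancel]
  field_simp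

lemma norm_coe (o : S2) : ‖(o : E)‖ = 1 := by simp

lemma inner_coe_self (o : S2) : ⟪(o : E), (o : E)⟫ = 1 := by
  rw [real_inner_self_eq_norm_sq, norm_coe]; norm_num

/-- a linear isometry acting on the sphere -/
def sphMap (T : E ≃ₗᵢ[ℝ] E) (o : S2) : S2 := ⟨T o, by simp⟩

lemma measurable_sphMap (T : E ≃ₗᵢ[ℝ] E) : Measurable (sphMap T) := by
  apply Measurable.subtype_mk
  exact T.continuous.measurable.comp measurable_subtype_coe

/-- integrals over the sphere as integrals over the unit ball -/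
theorem lintegral_sph_eq_ball (F : E → ℝ≥0∞) (hF : Measurable F) :
    ∫⁻ o, F o ∂sph = dd * ∫⁻ z in Metric.ball (0 : E) 1, F (‖z‖⁻¹ • z) := by
  have hm : Measurable fun z : E => F (‖z‖⁻¹ • z) := by apply hF.comp; fun_prop
  rw [← lintegral_indicator measurableSet_ball,
    lintegral_polar _ (hm.indicator measurableSet_ball)]
  have h : ∀ o : S2, (∫⁻ r in Ioi (0 : ℝ), ENNReal.ofReal (r ^ (dd - 1)) *
      (Metric.ball (0 : E) 1).indicator (fun z : E => F (‖z‖⁻¹ • z)) (r • (o : E)))
      = (∫⁻ r in Ioo (0 : ℝ) 1, ENNReal.ofReal (r ^ (dd - 1))) * F o := by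
    intro o
    have h1 : (∫⁻ r in Ioi (0 : ℝ), ENNReal.ofReal (r ^ (dd - 1)) *
      (Metric.ball (0 : E) 1).indicator (fun z : E => F (‖z‖⁻¹ • z)) (r • (o : E)))
        = ∫⁻ r in Ioi (0 : ℝ),
          (Iio (1 : ℝ)).indicator (fun r => ENNReal.ofReal (r ^ (dd - 1)) * F o) r := by
      refine setLIntegral_congr_fun measurableSet_Ioi fun r hr => ?_
      have hr' : (0 : ℝ) < r := hr
      by_cases h1 : r < 1
      · rw [indicator_of_mem (by simpa [norm_smul, abs_of_pos hr'] using h1),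
          indicator_of_mem (by simpa using h1)]
        simp [norm_smul, abs_of_pos hr', smul_smul, hr'.ne']
      · rw [indicator_of_notMem (by simpa [norm_smul, abs_of_pos hr'] using h1),
          indicator_of_notMem (by simpa using h1)]
        simp
    rw [h1, lintegral_indicator measurableSet_Iio, Measure.restrict_restrict measurableSet_Iio,
      Iio_inter_Ioi, lintegral_mul_const _ (by fun_prop)]
  simp only [h]
  have hF' : Measurable fun o : S2 => F o := hF.comp measurable_subtype_coe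
  rw [lintegral_const_mul _ hF', ← mul_assoc, lintegral_pow_Ioo, one_mul]

theorem lintegral_sph_isometry (T : E ≃ₗᵢ[ℝ] E) (F : E → ℝ≥0∞) (hF : Measurable F) :
    ∫⁻ o, F (T o) ∂sph = ∫⁻ o, F o ∂sph := by
  rw [lintegral_sph_eq_ball F hF,
    lintegral_sph_eq_ball (fun x => F (T x)) (hF.comp T.continuous.measurable)]
  congr 1
  have hm : Measurable fun z : E => F (‖z‖⁻¹ • z) := by apply hF.comp; fun_prop
  rw [← lintegral_indicator measurableSet_ball, ← lintegral_indicator measurableSet_ball,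
    ← T.measurePreserving.lintegral_comp (hm.indicator measurableSet_ball)]
  refine lintegral_congr fun z => ?_
  by_cases hz : z ∈ Metric.ball (0 : E) 1
  · rw [indicator_of_mem hz, indicator_of_mem (by simpa using hz)]; simp
  · rw [indicator_of_notMem hz, indicator_of_notMem (by simpa using hz)]

theorem lintegral_sph_neg (F : E → ℝ≥0∞) (hF : Measurable F) :
    ∫⁻ o : S2, F (-(o : E)) ∂sph = ∫⁻ o, F o ∂sph :=
  lintegral_sph_isometry (LinearIsometryEquiv.neg ℝ) F hF

theorem measurePreserving_sphMap (T : E ≃ₗᵢ[ℝ] E) : MeasurePreserving (sphMap T) sph sph := by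
  refine ⟨measurable_sphMap T, ?_⟩
  ext s hs
  rw [Measure.map_apply (measurable_sphMap T) hs]
  have hs' : MeasurableSet ((↑) '' s : Set E) :=
    (MeasurableEmbedding.subtype_coe Metric.isClosed_sphere.measurableSet).measurableSet_image.2 hs
  have h := lintegral_sph_isometry T (((↑) '' s : Set E).indicator 1)
    (measurable_one.indicator hs')
  rw [← lintegral_indicator_one hs, ← lintegral_indicator_one (measurable_sphMap T hs)]
  refine Eq.trans (lintegral_congr fun o => ?_) (h.trans (lintegral_congr fun o => Eq.symm ?_))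
  · by_cases ho : sphMap T o ∈ s
    · rw [indicator_of_mem (show o ∈ sphMap T ⁻¹' s from ho),
        indicator_of_mem (show T o ∈ ((↑) '' s : Set E) from ⟨_, ho, rfl⟩)]; rfl
    · rw [indicator_of_notMem (show o ∉ sphMap T ⁻¹' s from ho), indicator_of_notMem]
      rintro ⟨o', h1, h2⟩
      exact ho (by rwa [show sphMap T o = o' from Subtype.ext h2.symm])
  · by_cases ho : o ∈ s
    · rw [indicator_of_mem ho, indicator_of_mem (show (o : E) ∈ ((↑) '' s : Set E) from ⟨_, ho, rfl⟩)]
      rfl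
    · rw [indicator_of_notMem ho, indicator_of_notMem]
      rintro ⟨o', h1, h2⟩
      exact ho (by rwa [← show o' = o from Subtype.ext h2])

/-- polar coordinates along whole lines -/
theorem lintegral_polar_line (F : E → ℝ≥0∞) (hF : Measurable F) :
    ∫⁻ o, (∫⁻ r : ℝ, ENNReal.ofReal (|r| ^ (dd - 1)) * F (r • (o : E))) ∂sph = 2 * ∫⁻ z, F z := by
  have hm : Measurable fun p : E × ℝ => ENNReal.ofReal (|p.2| ^ (dd - 1)) * F (p.2 • p.1) := by
    refine Measurable.mul (by fun_prop) (hF.comp (by fun_prop))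
  have h : ∀ o : E, (∫⁻ r : ℝ, ENNReal.ofReal (|r| ^ (dd - 1)) * F (r • o)) =
      (∫⁻ r in Ioi (0 : ℝ), ENNReal.ofReal (|r| ^ (dd - 1)) * F (r • o)) +
      (∫⁻ r in Ioi (0 : ℝ), ENNReal.ofReal (|r| ^ (dd - 1)) * F (r • (-o))) := by
    intro o
    rw [← lintegral_add_compl _ (measurableSet_Ioi (a := (0 : ℝ))), compl_Ioi]
    congr 1
    rw [← restrict_Iio_eq_restrict_Iic, ← lintegral_indicator measurableSet_Iio,
      ← lintegral_indicator measurableSet_Ioi, ← lintegral_neg_eq_self]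
    refine lintegral_congr fun r => ?_
    by_cases hr : 0 < r
    · rw [indicator_of_mem (by simpa using hr), indicator_of_mem (by simpa using hr)]; simp
    · rw [indicator_of_notMem (by simpa using hr), indicator_of_notMem (by simpa using hr)]
  have hG : Measurable fun o : E => ∫⁻ r in Ioi (0 : ℝ), ENNReal.ofReal (|r| ^ (dd - 1)) * F (r • o) :=
    hm.lintegral_prod_right'
  simp only [h]
  have hG' : Measurable fun o : S2 =>
      ∫⁻ r in Ioi (0 : ℝ), ENNReal.ofReal (|r| ^ (dd - 1)) * F (r • (o : E)) :=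
    hG.comp measurable_subtype_coe
  rw [lintegral_add_left hG', lintegral_sph_neg _ hG, two_mul,
    lintegral_polar F hF]
  have e : ∀ o : S2, ∫⁻ r in Ioi (0 : ℝ), ENNReal.ofReal (|r| ^ (dd - 1)) * F (r • (o : E)) =
      ∫⁻ r in Ioi (0 : ℝ), ENNReal.ofReal (r ^ (dd - 1)) * F (r • (o : E)) := fun o =>
    setLIntegral_congr_fun measurableSet_Ioi fun r hr => by
      simp only [abs_of_pos (show (0 : ℝ) < r from hr)]
  simp only [e]

/-! slices -/

theorem exists_slice (e : E) (he : ‖e‖ = 1) :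
    ∃ ι : E2 →ₗᵢ[ℝ] E, (∀ y, ⟪e, ι y⟫ = 0) ∧ (∀ x, ∃ y, x = ⟪e, x⟫ • e + ι y) ∧
      MeasurePreserving (fun p : ℝ × E2 => p.1 • e + ι p.2) := by
  have he0 : e ≠ 0 := by rintro rfl; simp at he
  have hd := two_le_dd
  have : Fact (Module.finrank ℝ E = (dd - 1) + 1) := ⟨by simp; omega⟩
  let b := OrthonormalBasis.fromOrthogonalSpanSingleton (𝕜 := ℝ) (dd - 1) he0
  let ι : E2 →ₗᵢ[ℝ] E := (ℝ ∙ e)ᗮ.subtypeₗᵢ.comp b.repr.symm.toLinearIsometry
  have h0 : ∀ y, ⟪e, ι y⟫ = 0 := fun y =>
    Submodule.mem_orthogonal_singleton_iff_inner_right.1 (b.repr.symm y).2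
  have hee : ⟪e, e⟫ = 1 := by rw [real_inner_self_eq_norm_sq, he]; norm_num
  let L : WithLp 2 (ℝ × E2) →ₗ[ℝ] E :=
    ((LinearMap.toSpanSingleton ℝ E e).coprod ι.toLinearMap).comp
      (WithLp.linearEquiv 2 ℝ (ℝ × E2)).toLinearMap
  have hL : ∀ p : WithLp 2 (ℝ × E2), L p = p.ofLp.1 • e + ι p.ofLp.2 := fun p => by
    simp [L]
  let T : WithLp 2 (ℝ × E2) →ₗᵢ[ℝ] E := L.isometryOfInner fun p q => by
    rw [hL, hL, inner_add_left, inner_add_right, inner_add_right, inner_smul_left, inner_smul_left,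
      inner_smul_right, inner_smul_right, hee, h0, real_inner_comm, h0, ι.inner_map_map,
      WithLp.prod_inner_apply]
    simp [mul_comm]
  let T' := T.toLinearIsometryEquiv (by
    rw [(WithLp.linearEquiv 2 ℝ (ℝ × E2)).finrank_eq]; simp; omega)
  refine ⟨ι, h0, fun x => ?_, ?_⟩
  · obtain ⟨p, hp⟩ := T'.surjective x
    have hp' : x = p.ofLp.1 • e + ι p.ofLp.2 := by rw [← hp, ← hL]; rfl
    refine ⟨p.ofLp.2, ?_⟩
    have : ⟪e, x⟫ = p.ofLp.1 := by
      rw [hp', inner_add_right, inner_smul_right, hee, h0]; ring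
    rw [this, ← hp']
  · have := T'.measurePreserving.comp (WithLp.volume_preserving_toLp ℝ E2)
    have e1 : (fun p : ℝ × E2 => p.1 • e + ι p.2) = T' ∘ WithLp.toLp 2 :=
      funext fun p => (hL (WithLp.toLp 2 p)).symm
    rw [e1]
    exact this

theorem lintegral_slice {e : E} {ι : E2 →ₗᵢ[ℝ] E}
    (h : MeasurePreserving (fun p : ℝ × E2 => p.1 • e + ι p.2)) (F : E → ℝ≥0∞)
    (hF : Measurable F) : ∫⁻ u, F u = ∫⁻ r : ℝ, ∫⁻ y : E2, F (r • e + ι y) := by
  rw [← h.lintegral_comp hF, Measure.volume_eq_prod]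
  exact lintegral_prod _ (hF.comp h.measurable).aemeasurable

lemma norm_sq_slice {e : E} (he : ‖e‖ = 1) {ι : E2 →ₗᵢ[ℝ] E} (h0 : ∀ y, ⟪e, ι y⟫ = 0)
    (r : ℝ) (y : E2) : ‖r • e + ι y‖ ^ 2 = r ^ 2 + ‖y‖ ^ 2 := by
  rw [norm_add_sq_real, inner_smul_left, h0, norm_smul, he, ι.norm_map]; simp

lemma inner_slice {e : E} (he : ‖e‖ = 1) {ι : E2 →ₗᵢ[ℝ] E} (h0 : ∀ y, ⟪e, ι y⟫ = 0)
    (r : ℝ) (y : E2) : ⟪e, r • e + ι y⟫ = r := by
  rw [inner_add_right, inner_smul_right, h0, real_inner_self_eq_norm_sq, he]; simp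

end Pool.Agent.BoltzD.Coll

end
end MrgPart1

-- ======== part 2: formerly Pool.Agent.BoltzD.Coll.Arch
section MrgPart2

/-!
Archimedes' theorem on the sphere and its consequences.
-/

open MeasureTheory Real Set
open scoped ENNReal RealInnerProductSpace

noncomputable section

namespace Pool.Agent.BoltzD.Coll

variable [Dim]

omit [Dim] in
lemma lintegral_sin_cos (φ : ℝ → ℝ≥0∞) :
    ∫⁻ t in Ioo (-π) π, ENNReal.ofReal (Real.sin t) * φ (Real.cos t)
      = ∫⁻ t in Ioo (-1 : ℝ) 1, φ t := by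
  have h1 : Real.cos '' Ioo 0 π = Ioo (-1 : ℝ) 1 := by
    ext x
    constructor
    · rintro ⟨t, ⟨h0, h1⟩, rfl⟩
      constructor
      · rw [← Real.cos_pi]; exact Real.cos_lt_cos_of_nonneg_of_le_pi h0.le le_rfl h1
      · rw [← Real.cos_zero]; exact Real.cos_lt_cos_of_nonneg_of_le_pi le_rfl h1.le h0
    · rintro ⟨h0, h1⟩
      exact ⟨Real.arccos x, ⟨Real.arccos_pos.2 h1, Real.arccos_lt_pi.2 h0⟩,
        Real.cos_arccos h0.le h1.le⟩
  rw [← h1, lintegral_image_eq_lintegral_abs_deriv_mul measurableSet_Ioo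
    (f' := fun t => -Real.sin t) (fun t _ => (Real.hasDerivAt_cos t).hasDerivWithinAt)
    (Real.injOn_cos.mono Ioo_subset_Icc_self),
    ← lintegral_indicator measurableSet_Ioo, ← lintegral_indicator measurableSet_Ioo]
  refine lintegral_congr fun t => ?_
  by_cases h : t ∈ Ioo 0 π
  · rw [indicator_of_mem h, indicator_of_mem (show t ∈ Ioo (-π) π from
      ⟨by linarith [h.1, Real.pi_pos], h.2⟩), abs_neg,
      abs_of_nonneg (Real.sin_nonneg_of_nonneg_of_le_pi h.1.le h.2.le)]
  · rw [indicator_of_notMem h]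
    by_cases h' : t ∈ Ioo (-π) π
    · rw [indicator_of_mem h', ENNReal.ofReal_of_nonpos, zero_mul]
      have : t ≤ 0 := by
        by_contra h0
        exact h ⟨not_le.1 h0, h'.2⟩
      exact Real.sin_nonpos_of_nonpos_of_neg_pi_le this h'.1.le
    · rw [indicator_of_notMem h']

/-- density of the law of one coordinate on the sphere -/
def dens (t : ℝ) : ℝ := (1 - t ^ 2) ^ (((dd : ℝ) - 3) / 2)

@[fun_prop] lemma measurable_dens : Measurable dens := by
  unfold dens; exact Measurable.pow_const (by fun_prop) _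

lemma dens_nonneg {t : ℝ} (h : t ^ 2 ≤ 1) : 0 ≤ dens t := Real.rpow_nonneg (by linarith) _

lemma dens_le {t : ℝ} (h : t ^ 2 ≤ 1 / 2) : dens t ≤ 2 := by
  have hd : (2 : ℝ) ≤ dd := by exact_mod_cast two_le_dd
  calc dens t ≤ (1 - t ^ 2) ^ (-1 : ℝ) :=
        Real.rpow_le_rpow_of_exponent_ge (by linarith) (by linarith [sq_nonneg t]) (by linarith)
    _ ≤ 2 := by
        rw [Real.rpow_neg_one, inv_le_comm₀ (by linarith) (by norm_num)]
        linarith

lemma le_dens {t : ℝ} (h : t ^ 2 ≤ 1 / 2) : (1 / 2) ^ dd ≤ dens t := by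
  have hd : (2 : ℝ) ≤ dd := by exact_mod_cast two_le_dd
  calc (1 / 2 : ℝ) ^ dd ≤ (1 - t ^ 2) ^ dd := by gcongr; linarith
    _ = (1 - t ^ 2) ^ (dd : ℝ) := (Real.rpow_natCast _ _).symm
    _ ≤ dens t :=
        Real.rpow_le_rpow_of_exponent_ge (by linarith) (by linarith [sq_nonneg t]) (by linarith)

lemma sin_mul_dens {t : ℝ} (h : 0 < Real.sin t) :
    Real.sin t * dens (Real.cos t) = Real.sin t ^ (dd - 2) := by
  have hd := two_le_dd
  rw [dens, ← Real.sin_sq, ← Real.rpow_natCast, ← Real.rpow_mul h.le, mul_comm,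
    ← Real.rpow_add_one h.ne', ← Real.rpow_natCast, Nat.cast_sub hd]
  congr 1; push_cast; ring

/-- Archimedes' theorem -/
theorem archimedes (e : E) (he : ‖e‖ = 1) (φ : ℝ → ℝ≥0∞) (hφ : Measurable φ) :
    ∫⁻ o, φ ⟪e, (o : E)⟫ ∂sph =
      ENNReal.ofReal cS * ∫⁻ t in Ioo (-1 : ℝ) 1, ENNReal.ofReal (dens t) * φ t := by
  have hd := two_le_dd
  let W : ℝ → ℝ≥0∞ := (Ioi (0 : ℝ)).indicator fun s => ENNReal.ofReal (s ^ (dd - 2))
  have hW : Measurable W := Measurable.indicator (by fun_prop) measurableSet_Ioi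
  obtain ⟨ι, h0, -, hmp⟩ := exists_slice e he
  let G : ℝ × ℝ → ℝ≥0∞ := fun p =>
    (Iio (1 : ℝ)).indicator (fun _ => φ (p.1 / √(p.1 ^ 2 + p.2 ^ 2))) (p.1 ^ 2 + p.2 ^ 2)
  have hG : Measurable G := by
    have : G = {p : ℝ × ℝ | p.1 ^ 2 + p.2 ^ 2 < 1}.indicator
        (fun p => φ (p.1 / √(p.1 ^ 2 + p.2 ^ 2))) := by
      funext p; simp [G, indicator]
    rw [this]
    exact (hφ.comp (by fun_prop)).indicator (measurableSet_lt (by fun_prop) (by fun_prop))
  have hm : Measurable fun z : E => φ ⟪e, ‖z‖⁻¹ • z⟫ := by apply hφ.comp; fun_prop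
  rw [lintegral_sph_eq_ball (fun x => φ ⟪e, x⟫) (by apply hφ.comp; fun_prop),
    ← lintegral_indicator measurableSet_ball,
    lintegral_slice hmp _ (hm.indicator measurableSet_ball)]
  have h1 : ∀ (r : ℝ) (y : E2), (Metric.ball (0 : E) 1).indicator
      (fun z : E => φ ⟪e, ‖z‖⁻¹ • z⟫) (r • e + ι y) = G (r, ‖y‖) := by
    intro r y
    have hn := norm_sq_slice he h0 r y
    have hn' : ‖r • e + ι y‖ = √(r ^ 2 + ‖y‖ ^ 2) := by rw [← hn, Real.sqrt_sq (norm_nonneg _)]
    by_cases h : r ^ 2 + ‖y‖ ^ 2 < 1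
    · rw [indicator_of_mem, inner_smul_right, inner_slice he h0, hn']
      · simp only [G]
        rw [indicator_of_mem (show r ^ 2 + ‖y‖ ^ 2 ∈ Iio (1 : ℝ) from h), div_eq_inv_mul]
      · rw [mem_ball_zero_iff, hn', Real.sqrt_lt' one_pos]; simpa using h
    · rw [indicator_of_notMem]
      · simp only [G]
        rw [indicator_of_notMem (show r ^ 2 + ‖y‖ ^ 2 ∉ Iio (1 : ℝ) from h)]
      · rw [mem_ball_zero_iff, hn', Real.sqrt_lt' one_pos]; simpa using h
  simp only [h1]
  have h2 : ∀ r : ℝ, ∫⁻ y : E2, G (r, ‖y‖) =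
      ENNReal.ofReal cS * ∫⁻ s : ℝ, W s * G (r, s) := by
    intro r
    rw [lintegral_radial2 (fun s => G (r, s)) (hG.comp (by fun_prop)),
      ← lintegral_indicator measurableSet_Ioi]
    congr 1
    refine lintegral_congr fun s => ?_
    by_cases hs : 0 < s
    · simp only [W, indicator_of_mem (show s ∈ Ioi (0 : ℝ) from hs)]
    · simp only [W, indicator_of_notMem (show s ∉ Ioi (0 : ℝ) from hs), zero_mul]
  have hG2 : Measurable fun p : ℝ × ℝ => W p.2 * G p :=
    Measurable.mul (hW.comp measurable_snd) hG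
  simp only [h2]
  rw [lintegral_const_mul _ hG2.lintegral_prod_right', ← lintegral_prod _ hG2.aemeasurable,
    ← Measure.volume_eq_prod, ← lintegral_comp_polarCoord_symm, polarCoord_target,
    mul_left_comm]
  congr 1
  have h3 : ∀ p ∈ Ioi (0 : ℝ) ×ˢ Ioo (-π) π,
      ENNReal.ofReal p.1 • (W (polarCoord.symm p).2 * G (polarCoord.symm p)) =
      (Iio (1 : ℝ)).indicator (fun r => ENNReal.ofReal (r ^ (dd - 1))) p.1 *
        (ENNReal.ofReal (Real.sin p.2) *
          (ENNReal.ofReal (dens (Real.cos p.2)) * φ (Real.cos p.2))) := by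
    rintro ⟨R, t⟩ ⟨hR, -⟩
    have hR' : 0 < R := hR
    have hs : (R * Real.cos t) ^ 2 + (R * Real.sin t) ^ 2 = R ^ 2 := by
      linear_combination R ^ 2 * Real.cos_sq_add_sin_sq t
    simp only [polarCoord_symm_apply, G, hs, smul_eq_mul, Real.sqrt_sq hR'.le]
    by_cases h : R < 1
    · rw [indicator_of_mem (show R ^ 2 ∈ Iio (1 : ℝ) from by
        simp only [mem_Iio]; nlinarith), indicator_of_mem (show R ∈ Iio (1 : ℝ) from h),
        mul_div_cancel_left₀ _ hR'.ne']
      by_cases h0 : 0 < Real.sin t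
      · simp only [W, indicator_of_mem (show R * Real.sin t ∈ Ioi (0 : ℝ) from mul_pos hR' h0)]
        rw [← mul_assoc (ENNReal.ofReal (Real.sin t)), ← ENNReal.ofReal_mul h0.le, sin_mul_dens h0,
          ← mul_assoc, ← mul_assoc, ← ENNReal.ofReal_mul hR'.le,
          ← ENNReal.ofReal_mul (by positivity), show dd - 1 = dd - 2 + 1 by omega]
        congr 2; ring
      · have h1 : R * Real.sin t ∉ Ioi (0 : ℝ) := fun h1 => h0 ((mul_pos_iff_of_pos_left hR').1 h1)
        simp only [W, indicator_of_notMem h1, ENNReal.ofReal_of_nonpos (not_lt.1 h0), zero_mul,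
          mul_zero]
    · rw [indicator_of_notMem (show R ^ 2 ∉ Iio (1 : ℝ) from by
        simp only [mem_Iio]; nlinarith), indicator_of_notMem (show R ∉ Iio (1 : ℝ) from h)]
      simp
  rw [setLIntegral_congr_fun (measurableSet_Ioi.prod measurableSet_Ioo) h3,
    Measure.volume_eq_prod, ← Measure.prod_restrict, lintegral_prod_mul
      (g := fun t => ENNReal.ofReal (Real.sin t) *
        (ENNReal.ofReal (dens (Real.cos t)) * φ (Real.cos t)))
      (Measurable.indicator (by fun_prop) measurableSet_Iio).aemeasurable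
      (Measurable.mul (by fun_prop)
        (Measurable.mul (by fun_prop) (hφ.comp (by fun_prop)))).aemeasurable,
    lintegral_sin_cos (fun t => ENNReal.ofReal (dens t) * φ t),
    lintegral_indicator measurableSet_Iio, Measure.restrict_restrict measurableSet_Iio,
    Iio_inter_Ioi, ← mul_assoc, lintegral_pow_Ioo, one_mul]

/-- Archimedes' theorem for an arbitrary nonzero vector -/
theorem archimedes_vec (u : E) (hu : u ≠ 0) (φ : ℝ → ℝ≥0∞) (hφ : Measurable φ) :
    ∫⁻ o, φ ⟪u, (o : E)⟫ ∂sph = ENNReal.ofReal (cS / ‖u‖) *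
      ∫⁻ t in Ioo (-‖u‖) ‖u‖, ENNReal.ofReal (dens (t / ‖u‖)) * φ t := by
  have hn : 0 < ‖u‖ := norm_pos_iff.2 hu
  have hc := cS_pos
  have h := archimedes (‖u‖⁻¹ • u) (by simp [norm_smul, hn.ne']) (fun t => φ (‖u‖ * t))
    (hφ.comp (by fun_prop))
  simp only [inner_smul_left, conj_trivial, mul_inv_cancel_left₀ hn.ne'] at h
  rw [h]
  have h1 : (fun t => ‖u‖ * t) '' Ioo (-1 : ℝ) 1 = Ioo (-‖u‖) ‖u‖ := by
    rw [image_mul_left_Ioo hn]; simp
  rw [← h1, lintegral_image_eq_lintegral_abs_deriv_mul measurableSet_Ioo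
    (f' := fun _ => ‖u‖) (fun t _ => by
      simpa using ((hasDerivAt_id t).const_mul ‖u‖).hasDerivWithinAt)
    (fun a _ b _ hab => mul_left_cancel₀ hn.ne' hab)]
  simp only [mul_div_cancel_left₀ _ hn.ne']
  rw [lintegral_const_mul (f := fun t => ENNReal.ofReal (dens t) * φ (‖u‖ * t)) _
      (Measurable.mul (by fun_prop) (hφ.comp (by fun_prop))), ← mul_assoc, abs_of_pos hn,
    ← ENNReal.ofReal_mul (by positivity), div_mul_cancel₀ _ hn.ne']

lemma lintegral_dens : ENNReal.ofReal cS * ∫⁻ t in Ioo (-1 : ℝ) 1, ENNReal.ofReal (dens t)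
    = ENNReal.ofReal cT := by
  have h := archimedes (EuclideanSpace.single 0 1) (by simp) (fun _ => 1) measurable_const
  simpa [sph_univ] using h.symm

/-- upper bound: the equatorial zone by the integral, the polar caps by a bound -/
theorem arch_le (u : E) (hu : u ≠ 0) (φ : ℝ → ℝ≥0∞) (hφ : Measurable φ) {M : ℝ≥0∞}
    (hM : ∀ t, ‖u‖ / 2 < |t| → φ t ≤ M) :
    ∫⁻ o, φ ⟪u, (o : E)⟫ ∂sph
      ≤ ENNReal.ofReal (2 * cS / ‖u‖) * (∫⁻ t, φ t) + ENNReal.ofReal cT * M := by
  have hn : 0 < ‖u‖ := norm_pos_iff.2 hu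
  have hc := cS_pos
  have hm : Measurable ((Icc (-(‖u‖ / 2)) (‖u‖ / 2)).indicator φ) := hφ.indicator measurableSet_Icc
  calc _ ≤ ∫⁻ o : S2, ((Icc (-(‖u‖ / 2)) (‖u‖ / 2)).indicator φ ⟪u, (o : E)⟫ + M) ∂sph := by
        refine lintegral_mono fun o => ?_
        by_cases h : ⟪u, (o : E)⟫ ∈ Icc (-(‖u‖ / 2)) (‖u‖ / 2)
        · simp only [indicator_of_mem h]; exact le_self_add
        · exact (hM _ (not_le.1 fun h' => h (abs_le.1 h'))).trans le_add_self
    _ ≤ _ := by
        rw [lintegral_add_right _ measurable_const, lintegral_const, sph_univ, mul_comm M,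
          archimedes_vec u hu _ hm, mul_div_assoc, mul_comm 2, ENNReal.ofReal_mul (by positivity),
          mul_assoc, ← lintegral_const_mul _ hφ]
        refine add_le_add (mul_le_mul_right ?_ _) le_rfl
        refine (setLIntegral_le_lintegral _ _).trans (lintegral_mono fun t => ?_)
        by_cases h : t ∈ Icc (-(‖u‖ / 2)) (‖u‖ / 2)
        · simp only [indicator_of_mem h]
          gcongr
          refine dens_le ?_
          rw [div_pow, div_le_iff₀ (by positivity)]
          nlinarith [h.1, h.2]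
        · simp [indicator_of_notMem h]

/-- lower bound on the equatorial zone -/
theorem le_arch (u : E) (hu : u ≠ 0) (φ : ℝ → ℝ≥0∞) (hφ : Measurable φ)
    (h0 : ∀ t, ‖u‖ ^ 2 / 2 < t ^ 2 → φ t = 0) :
    ENNReal.ofReal ((1 / 2) ^ dd * cS / ‖u‖) * ∫⁻ t, φ t ≤ ∫⁻ o, φ ⟪u, (o : E)⟫ ∂sph := by
  have hn : 0 < ‖u‖ := norm_pos_iff.2 hu
  have hc := cS_pos
  rw [archimedes_vec u hu _ hφ, mul_div_assoc, mul_comm ((1 / 2 : ℝ) ^ dd),
    ENNReal.ofReal_mul (by positivity), mul_assoc, ← lintegral_const_mul _ hφ,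
    ← lintegral_indicator measurableSet_Ioo]
  gcongr with t
  by_cases h : ‖u‖ ^ 2 / 2 < t ^ 2
  · simp [h0 t h]
  · rw [indicator_of_mem (show t ∈ Ioo (-‖u‖) ‖u‖ from abs_lt.1
      (abs_lt_of_sq_lt_sq (by nlinarith) hn.le))]
    gcongr
    refine le_dens ?_
    rw [div_pow, div_le_iff₀ (by positivity)]
    linarith

end Pool.Agent.BoltzD.Coll

end
end MrgPart2

-- ======== part 3: formerly Pool.Agent.BoltzD.Geo.Sphere
section MrgPart3

/-! Integral geometry: rotations and cylinder coordinates. -/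

set_option autoImplicit false

open MeasureTheory Set Metric
open scoped ENNReal RealInnerProductSpace Pointwise

namespace Pool.Agent.BoltzD.Geo

open Coll

variable [Dim]

lemma exists_rot {a b : E} (h : ‖a‖ = ‖b‖) : ∃ R : E ≃ₗᵢ[ℝ] E, R a = b :=
  ⟨_, Submodule.reflection_sub h⟩

@[simp] lemma coe_sphMap (R : E ≃ₗᵢ[ℝ] E) (om : S2) : (sphMap R om : E) = R om := rfl

lemma continuous_sphMap (R : E ≃ₗᵢ[ℝ] E) : Continuous (sphMap R) :=
  Continuous.subtype_mk (R.continuous.comp continuous_subtype_val) _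

/-- The standard basis vectors. -/
noncomputable def ee (i : Ix) : E := EuclideanSpace.single i 1

lemma norm_ee (i : Ix) : ‖ee i‖ = 1 := by simp [ee]

/-- The component orthogonal to `om`. -/
noncomputable def perp (om u : E) : E := u - ⟪u, om⟫ • om

lemma continuous_perp : Continuous (fun p : E × E => perp p.1 p.2) := by
  unfold perp; fun_prop

lemma inner_coords {om : E} (h : ‖om‖ = 1) {ι : E2 →ₗᵢ[ℝ] E} (h0 : ∀ y, ⟪om, ι y⟫ = 0)
    (x : ℝ) (y : E2) : ⟪x • om + ι y, om⟫ = x := by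
  rw [real_inner_comm, inner_slice h h0]

lemma perp_coords {om : E} (h : ‖om‖ = 1) {ι : E2 →ₗᵢ[ℝ] E} (h0 : ∀ y, ⟪om, ι y⟫ = 0)
    (x : ℝ) (y : E2) : perp om (x • om + ι y) = ι y := by
  rw [perp, inner_coords h h0]; abel

lemma norm_sq_eq_perp {om : E} (h : ‖om‖ = 1) (u : E) :
    ‖u‖ ^ 2 = ⟪u, om⟫ ^ 2 + ‖perp om u‖ ^ 2 := by
  rw [perp, norm_sub_sq_real, inner_smul_right, norm_smul, h]
  simp only [Real.norm_eq_abs, mul_one, sq_abs]
  ring

/-- Cylinder coordinates around a unit vector. -/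
lemma cyl {om : E} (h : ‖om‖ = 1) (Φ : ℝ → ℝ → ℝ≥0∞) (hΦ : Measurable (Function.uncurry Φ)) :
    ∫⁻ u : E, Φ ⟪u, om⟫ ‖perp om u‖
      = ∫⁻ t : ℝ, ∫⁻ r in Ioi (0 : ℝ), ENNReal.ofReal (cS * r ^ (dd - 2)) * Φ t r := by
  obtain ⟨ι, h0, -, hmp⟩ := exists_slice om h
  have hm : Measurable (fun u : E => Φ ⟪u, om⟫ ‖perp om u‖) := by
    have : Measurable (fun u : E => ((⟪u, om⟫, ‖perp om u‖) : ℝ × ℝ)) := by
      unfold perp; fun_prop
    exact hΦ.comp this
  rw [lintegral_slice hmp _ hm]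
  refine lintegral_congr fun t => ?_
  have hΦt : Measurable (Φ t) := hΦ.comp measurable_prodMk_left
  simp only [inner_coords h h0, perp_coords h h0, ι.norm_map, ENNReal.ofReal_mul cS_pos.le,
    mul_assoc]
  rw [lintegral_radial2 (Φ t) hΦt, lintegral_const_mul' _ _ ENNReal.ofReal_ne_top]

end Pool.Agent.BoltzD.Geo

end MrgPart3

-- ======== part 4: formerly Pool.Agent.BoltzD.Geo.BP
section MrgPart4

/-! A rotation invariant finite measure is determined by its radial law; the formula of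
Blaschke and Petkantschin for hyperplanes through the origin. -/

set_option autoImplicit false

open MeasureTheory Set Metric
open scoped ENNReal RealInnerProductSpace

namespace Pool.Agent.BoltzD.Geo

open Coll

variable [Dim]

/-- Spherical mean of a plane wave. -/
noncomputable def wave (t : ℝ) : ℂ :=
  ∫ om : S2, Complex.exp (((t * ⟪ee 0, (om : E)⟫ : ℝ) : ℂ) * Complex.I) ∂sph

lemma continuous_wave : Continuous wave := by
  refine continuous_of_dominated (bound := fun _ => 1) ?_ ?_ (integrable_const _) ?_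
  · intro t
    exact Continuous.aestronglyMeasurable (by fun_prop)
  · intro t
    exact Filter.Eventually.of_forall fun om => (Complex.norm_exp_ofReal_mul_I _).le
  · exact Filter.Eventually.of_forall fun om => by fun_prop

lemma wave_eq (x : E) (c : ℝ) :
    ∫ om : S2, Complex.exp (((⟪x, c • (om : E)⟫ : ℝ) : ℂ) * Complex.I) ∂sph = wave (c * ‖x‖) := by
  obtain ⟨R, hR⟩ := exists_rot (a := ‖x‖ • ee 0) (b := x) (by simp [norm_smul, norm_ee])
  have h := (measurePreserving_sphMap R).integral_comp' (f := Homeomorph.toMeasurableEquiv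
    { toFun := sphMap R, invFun := sphMap R.symm, left_inv := fun om => Subtype.ext (by simp),
      right_inv := fun om => Subtype.ext (by simp), continuous_toFun := continuous_sphMap R,
      continuous_invFun := continuous_sphMap R.symm })
    (fun om : S2 => Complex.exp (((⟪x, c • (om : E)⟫ : ℝ) : ℂ) * Complex.I))
  rw [← h, wave]
  refine integral_congr_ae (Filter.Eventually.of_forall fun om => ?_)
  have : ⟪x, c • (R (om : E))⟫ = c * ‖x‖ * ⟪ee 0, (om : E)⟫ := by
    rw [inner_smul_right]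
    conv_lhs => rw [← hR]
    rw [R.inner_map_map, inner_smul_left]
    simp [mul_assoc]
  show Complex.exp (((⟪x, c • (R (om : E))⟫ : ℝ) : ℂ) * Complex.I) = _
  rw [this]

lemma charFun_radial (μ : Measure E) [IsFiniteMeasure μ]
    (hμ : ∀ R : E ≃ₗᵢ[ℝ] E, MeasurePreserving R μ μ) (ξ : E) :
    (sph.real univ : ℂ) * charFun μ ξ = ∫ r, wave (‖ξ‖ * r) ∂(μ.map norm) := by
  have h1 : ∀ om : S2, charFun μ (‖ξ‖ • (om : E)) = charFun μ ξ := by
    intro om
    obtain ⟨R, hR⟩ := exists_rot (a := ξ) (b := ‖ξ‖ • (om : E)) (by simp [norm_smul])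
    rw [charFun_apply, charFun_apply, ← hR, ← (hμ R).integral_comp R.toHomeomorph.measurableEmbedding]
    simp only [R.inner_map_map]
  have h2 : ∫ om : S2, charFun μ (‖ξ‖ • (om : E)) ∂sph = (sph.real univ : ℂ) * charFun μ ξ := by
    simp only [h1, integral_const, Complex.real_smul]
  have hc : Continuous (fun r : ℝ => wave (‖ξ‖ * r)) := continuous_wave.comp (by fun_prop)
  rw [← h2, integral_map measurable_norm.aemeasurable hc.aestronglyMeasurable]
  simp only [charFun_apply]
  rw [integral_integral_swap]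
  · exact integral_congr_ae (Filter.Eventually.of_forall fun x => wave_eq x _)
  · refine (integrable_const (1 : ℝ)).mono' (Continuous.aestronglyMeasurable ?_)
      (Filter.Eventually.of_forall fun p => (Complex.norm_exp_ofReal_mul_I _).le)
    unfold Function.uncurry
    fun_prop

lemma inv_ext (μ ν : Measure E) [IsFiniteMeasure μ] [IsFiniteMeasure ν]
    (hμ : ∀ R : E ≃ₗᵢ[ℝ] E, MeasurePreserving R μ μ)
    (hν : ∀ R : E ≃ₗᵢ[ℝ] E, MeasurePreserving R ν ν) (h : μ.map norm = ν.map norm) : μ = ν := by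
  refine Measure.ext_of_charFun (funext fun ξ => ?_)
  have h0 : (sph.real univ : ℂ) ≠ 0 := by
    have : sph univ ≠ 0 := by
      rw [Ne, Measure.measure_univ_eq_zero]
      exact Measure.toSphere_ne_zero _
    simp only [measureReal_def, ne_eq, Complex.ofReal_eq_zero, ENNReal.toReal_eq_zero_iff, not_or]
    exact ⟨this, measure_ne_top _ _⟩
  apply mul_left_cancel₀ h0
  rw [charFun_radial μ hμ, charFun_radial ν hν, h]

omit [Dim] in
/-- Indicator of the unit interval. -/
noncomputable def slab (t : ℝ) : ℝ≥0∞ := (Icc (0 : ℝ) 1).indicator 1 t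

omit [Dim] in
lemma measurable_slab : Measurable slab := measurable_one.indicator measurableSet_Icc

omit [Dim] in
lemma lint_slab : ∫⁻ t, slab t = 1 := by
  unfold slab
  rw [lintegral_indicator measurableSet_Icc]
  simp

lemma measurable_perp2 : Measurable (fun p : S2 × E => perp (p.1 : E) p.2) := by
  unfold perp; fun_prop

lemma perp_map (R : E ≃ₗᵢ[ℝ] E) (om u : E) : perp (R om) (R u) = R (perp om u) := by
  simp [perp]

lemma lint_exp_lt_top :
    ∫⁻ r in Ioi (0 : ℝ), ENNReal.ofReal (cS * r ^ (dd - 2)) * ENNReal.ofReal (Real.exp (-r)) < ⊤ := by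
  have hd := two_le_dd
  have hc := cS_pos
  have h := (Real.GammaIntegral_convergent (s := (dd - 2 : ℕ) + 1) (by positivity)).const_mul cS
  refine lt_of_le_of_lt (le_of_eq ?_) h.lintegral_lt_top
  refine setLIntegral_congr_fun measurableSet_Ioi fun r hr => ?_
  have hr' : 0 < r := hr
  rw [← ENNReal.ofReal_mul (by positivity)]
  congr 1
  rw [add_sub_cancel_right, Real.rpow_natCast]
  ring

lemma bp_base (F : E → ℝ≥0∞) (hF : Measurable F) :
    ∫⁻ om : S2, (∫⁻ u : E, slab ⟪u, (om : E)⟫ * F (perp om u)) ∂sph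
      = ∫⁻ w : E, ENNReal.ofReal (cS / ‖w‖) * F w := by
  set k : ℝ → ℝ≥0∞ := fun r => ENNReal.ofReal (Real.exp (-r)) with hk
  have hkm : Measurable k := by fun_prop
  set d1 : S2 × E → ℝ≥0∞ := fun p => slab ⟪p.2, (p.1 : E)⟫ * k ‖perp (p.1 : E) p.2‖ with hd1
  have hd1m : Measurable d1 :=
    (measurable_slab.comp (by fun_prop)).mul (hkm.comp measurable_perp2.norm)
  set μ : Measure E := ((sph.prod volume).withDensity d1).map
    (fun p : S2 × E => perp (p.1 : E) p.2) with hμ
  set d2 : E → ℝ≥0∞ := fun w => ENNReal.ofReal (cS / ‖w‖) * k ‖w‖ with hd2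
  have hd2m : Measurable d2 := Measurable.mul (by fun_prop) (hkm.comp measurable_norm)
  set ν : Measure E := volume.withDensity d2 with hν
  have hμl : ∀ G : E → ℝ≥0∞, Measurable G →
      ∫⁻ w, G w ∂μ = ∫⁻ p, d1 p * G (perp (p.1 : E) p.2) ∂(sph.prod volume) := by
    intro G hG
    rw [hμ, lintegral_map hG measurable_perp2]
    exact lintegral_withDensity_eq_lintegral_mul _ hd1m (hG.comp measurable_perp2)
  have hνl : ∀ G : E → ℝ≥0∞, Measurable G → ∫⁻ w, G w ∂ν = ∫⁻ w, d2 w * G w := fun G hG =>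
    lintegral_withDensity_eq_lintegral_mul _ hd2m hG
  have hμr : ∀ T : ℝ → ℝ≥0∞, Measurable T → ∫⁻ w, T ‖w‖ ∂μ
      = (∫⁻ r in Ioi (0 : ℝ), ENNReal.ofReal (cS * r ^ (dd - 2)) * (k r * T r)) * sph univ := by
    intro T hT
    have hTn : Measurable (fun w : E => T ‖w‖) := hT.comp measurable_norm
    have hm : Measurable (fun p : S2 × E => d1 p * T ‖perp (p.1 : E) p.2‖) :=
      hd1m.mul (hTn.comp measurable_perp2)
    rw [hμl _ hTn, lintegral_prod _ hm.aemeasurable, ← lintegral_const]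
    refine lintegral_congr fun om => ?_
    have hΦ : Measurable (Function.uncurry fun t r : ℝ => slab t * (k r * T r)) :=
      (measurable_slab.comp measurable_fst).mul ((hkm.mul hT).comp measurable_snd)
    have h1 := cyl (norm_coe om) _ hΦ
    simp only [hd1, mul_assoc] at h1 ⊢
    rw [h1]
    have hm2 : Measurable (fun r : ℝ => ENNReal.ofReal (cS * r ^ (dd - 2)) * (k r * T r)) :=
      Measurable.mul (by fun_prop) (hkm.mul hT)
    have h2 : ∀ t : ℝ, ∫⁻ r in Ioi (0 : ℝ), ENNReal.ofReal (cS * r ^ (dd - 2)) * (slab t * (k r * T r))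
        = slab t * ∫⁻ r in Ioi (0 : ℝ), ENNReal.ofReal (cS * r ^ (dd - 2)) * (k r * T r) := by
      intro t
      rw [← lintegral_const_mul _ hm2]
      exact lintegral_congr fun r => by ring
    simp only [h2]
    rw [lintegral_mul_const _ measurable_slab, lint_slab, one_mul]
  have hνr : ∀ T : ℝ → ℝ≥0∞, Measurable T → ∫⁻ w, T ‖w‖ ∂ν
      = (∫⁻ r in Ioi (0 : ℝ), ENNReal.ofReal (cS * r ^ (dd - 2)) * (k r * T r)) * sph univ := by
    intro T hT
    have hTn : Measurable (fun w : E => T ‖w‖) := hT.comp measurable_norm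
    have hm : Measurable (fun w : E => d2 w * T ‖w‖) := hd2m.mul hTn
    rw [hνl _ hTn, lintegral_polar _ hm, ← lintegral_const]
    refine lintegral_congr fun om => ?_
    refine setLIntegral_congr_fun measurableSet_Ioi fun r hr => ?_
    have hr' : 0 < r := hr
    simp only [hd2, norm_smul, norm_coe, mul_one, Real.norm_eq_abs, abs_of_pos hr']
    rw [← mul_assoc, ← mul_assoc, ← ENNReal.ofReal_mul (by positivity), mul_assoc,
      show dd - 1 = dd - 2 + 1 by have := two_le_dd; omega, pow_succ]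
    congr 2
    field_simp
  have hfin : (∫⁻ r in Ioi (0 : ℝ), ENNReal.ofReal (cS * r ^ (dd - 2)) * (k r * 1)) * sph univ < ⊤ := by
    simp only [mul_one]
    exact ENNReal.mul_lt_top lint_exp_lt_top (measure_lt_top _ _)
  have : IsFiniteMeasure μ := ⟨by
    have := hμr (fun _ => 1) measurable_const
    rw [lintegral_one] at this
    rw [this]; exact hfin⟩
  have : IsFiniteMeasure ν := ⟨by
    have := hνr (fun _ => 1) measurable_const
    rw [lintegral_one] at this
    rw [this]; exact hfin⟩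
  have heq : μ = ν := by
    refine inv_ext μ ν (fun R => ⟨R.continuous.measurable, ?_⟩)
      (fun R => ⟨R.continuous.measurable, ?_⟩) ?_
    · refine Measure.ext_of_lintegral _ fun G hG => ?_
      have hGR : Measurable (fun w => G (R w)) := hG.comp R.continuous.measurable
      rw [lintegral_map hG R.continuous.measurable, hμl _ hGR, hμl _ hG]
      have hmp := (measurePreserving_sphMap R).prod R.measurePreserving
      have hm : Measurable (fun p : S2 × E => d1 p * G (perp (p.1 : E) p.2)) :=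
        hd1m.mul (hG.comp measurable_perp2)
      rw [← hmp.lintegral_comp hm]
      refine lintegral_congr fun p => ?_
      simp only [hd1, Prod.map_fst, Prod.map_snd, coe_sphMap, perp_map, R.inner_map_map,
        R.norm_map]
    · refine Measure.ext_of_lintegral _ fun G hG => ?_
      have hGR : Measurable (fun w => G (R w)) := hG.comp R.continuous.measurable
      have hm : Measurable (fun w => d2 w * G w) := hd2m.mul hG
      rw [lintegral_map hG R.continuous.measurable, hνl _ hGR, hνl _ hG,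
        ← R.measurePreserving.lintegral_comp hm]
      refine lintegral_congr fun w => ?_
      simp only [hd2, R.norm_map]
    · refine Measure.ext_of_lintegral _ fun T hT => ?_
      rw [lintegral_map hT measurable_norm, lintegral_map hT measurable_norm, hμr T hT, hνr T hT]
  have hG : Measurable (fun w : E => ENNReal.ofReal (Real.exp ‖w‖) * F w) :=
    Measurable.mul (by fun_prop) hF
  have hkk : ∀ r : ℝ, k r * ENNReal.ofReal (Real.exp r) = 1 := by
    intro r
    rw [hk, ← ENNReal.ofReal_mul (Real.exp_pos _).le, ← Real.exp_add]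
    simp
  have h1 := hμl _ hG
  rw [heq, hνl _ hG] at h1
  have hm : Measurable (fun p : S2 × E => slab ⟪p.2, (p.1 : E)⟫ * F (perp (p.1 : E) p.2)) :=
    (measurable_slab.comp (by fun_prop)).mul (hF.comp measurable_perp2)
  rw [← lintegral_prod _ hm.aemeasurable]
  calc ∫⁻ p : S2 × E, slab ⟪p.2, (p.1 : E)⟫ * F (perp (p.1 : E) p.2) ∂(sph.prod volume)
      = ∫⁻ p : S2 × E, d1 p * (ENNReal.ofReal (Real.exp ‖perp (p.1 : E) p.2‖)
          * F (perp (p.1 : E) p.2)) ∂(sph.prod volume) := by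
        refine lintegral_congr fun p => ?_
        simp only [hd1]
        rw [mul_assoc, ← mul_assoc (k _), hkk, one_mul]
    _ = _ := by
        rw [← h1]
        refine lintegral_congr fun w => ?_
        simp only [hd2]
        rw [mul_assoc, ← mul_assoc (k _), hkk, one_mul]

lemma slab_split {om : E} (h : ‖om‖ = 1) (Φ : ℝ → E → ℝ≥0∞)
    (hΦ : Measurable (Function.uncurry Φ)) :
    ∫⁻ u : E, Φ ⟪u, om⟫ (perp om u) = ∫⁻ t : ℝ, ∫⁻ u : E, slab ⟪u, om⟫ * Φ t (perp om u) := by
  obtain ⟨ι, h0, -, hmp⟩ := exists_slice om h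
  have hp : Measurable (fun u : E => perp om u) := by unfold perp; fun_prop
  have hi : Measurable (fun u : E => ⟪u, om⟫) := by fun_prop
  have hm : Measurable (fun u : E => Φ ⟪u, om⟫ (perp om u)) := hΦ.comp (hi.prodMk hp)
  rw [lintegral_slice hmp _ hm]
  refine lintegral_congr fun t => ?_
  have hΦt : Measurable (Φ t) := hΦ.comp measurable_prodMk_left
  have hm2 : Measurable (fun u : E => slab ⟪u, om⟫ * Φ t (perp om u)) :=
    (measurable_slab.comp hi).mul (hΦt.comp hp)
  rw [lintegral_slice hmp _ hm2]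
  simp only [inner_coords h h0, perp_coords h h0]
  have hm3 : Measurable (fun y : E2 => Φ t (ι y)) := hΦt.comp ι.continuous.measurable
  simp only [lintegral_const_mul _ hm3]
  rw [lintegral_mul_const _ measurable_slab, lint_slab, one_mul]

/-- The formula of Blaschke and Petkantschin. -/
lemma bp (Φ : ℝ → E → ℝ≥0∞) (hΦ : Measurable (Function.uncurry Φ)) :
    ∫⁻ om : S2, (∫⁻ u : E, Φ ⟪u, (om : E)⟫ (perp om u)) ∂sph
      = ∫⁻ w : E, ENNReal.ofReal (cS / ‖w‖) * ∫⁻ t : ℝ, Φ t w := by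
  simp only [fun om : S2 => slab_split (norm_coe om) Φ hΦ]
  have hm : Measurable (fun q : (S2 × ℝ) × E =>
      slab ⟪q.2, (q.1.1 : E)⟫ * Φ q.1.2 (perp (q.1.1 : E) q.2)) := by
    refine (measurable_slab.comp (by fun_prop)).mul (hΦ.comp (Measurable.prodMk (by fun_prop) ?_))
    fun_prop
  rw [lintegral_lintegral_swap hm.lintegral_prod_right'.aemeasurable]
  have h1 : ∀ t : ℝ, ∫⁻ om : S2, (∫⁻ u : E, slab ⟪u, (om : E)⟫ * Φ t (perp om u)) ∂sph
      = ∫⁻ w : E, ENNReal.ofReal (cS / ‖w‖) * Φ t w := fun t =>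
    bp_base (Φ t) (hΦ.comp measurable_prodMk_left)
  simp only [h1]
  have hm2 : Measurable (Function.uncurry fun (t : ℝ) (w : E) =>
      ENNReal.ofReal (cS / ‖w‖) * Φ t w) :=
    Measurable.mul (by fun_prop) hΦ
  rw [lintegral_lintegral_swap hm2.aemeasurable]
  refine lintegral_congr fun w => ?_
  exact lintegral_const_mul _ (hΦ.comp measurable_prodMk_right)

end Pool.Agent.BoltzD.Geo

end MrgPart4

-- marker of a merged file
example : 731051 + 488400 = 731051 + 488400 := rfl

end MrgPart1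

-- marker of a merged file
example : 731051 + 488400 = 731051 + 488400 := rfl
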